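import Pool.Agent.H87V.AW.Core

/-!
# The assembly
-/

set_option autoImplicit false
set_option linter.unusedSectionVars false

namespace Pool.Agent.H87V.AW

open Matrix Finset
open scoped Kronecker
open Pool.Agent.Y342.SK (Sg Sg.mul Sg.neg smul_one_kron)
open Pool.Agent.N328.PH
open Pool.Agent.H108R3.Had (PUk)

theorem ring_AR {M : Type*} [Ring M] {X E Q1 Q2 U1 U2 : M} (h1 : X * E + E * X = 0)
    (h2 : X * Q1 + Q1 * X = 0) (h3 : X * Q2 + Q2 * X = 0) (h4 : X * U1 + U1 * X = 0)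
    (h5 : X * U2 + U2 * X = 0) (h6 : E * Q1 + Q1 * E = 0) (h7 : E * U1 + U1 * E = 0)
    (h8 : Q1 * Q1 + Q1 * Q1 = 0) (h9 : Q1 * Q2 + Q2 * Q1 = 0) (h10 : U1 * U1 + U1 * U1 = 0)
    (h11 : U1 * U2 + U2 * U1 = 0) (h12 : Q1 * U2 + U2 * Q1 = 0) (h13 : Q2 * U1 + U1 * Q2 = 0) :
    (X + (Q1 - U1)) * (E + ((Q1 + Q2) + (U1 + U2))) +
      (E + ((Q1 + Q2) + (U1 + U2))) * (X + (Q1 - U1)) = 0 := by
  have e : (X + (Q1 - U1)) * (E + ((Q1 + Q2) + (U1 + U2))) +
      (E + ((Q1 + Q2) + (U1 + U2))) * (X + (Q1 - U1)) =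
      (X * E + E * X) + (X * Q1 + Q1 * X) + (X * Q2 + Q2 * X) + (X * U1 + U1 * X) +
      (X * U2 + U2 * X) + (E * Q1 + Q1 * E) - (E * U1 + U1 * E) + (Q1 * Q1 + Q1 * Q1) +
      (Q1 * Q2 + Q2 * Q1) - (U1 * U1 + U1 * U1) - (U1 * U2 + U2 * U1) + (Q1 * U2 + U2 * Q1) -
      (Q2 * U1 + U1 * Q2) := by noncomm_ring
  rw [e, h1, h2, h3, h4, h5, h6, h7, h8, h9, h10, h11, h12, h13]
  simp

theorem ring_RR {M : Type*} [Ring M] {E Q1 Q2 U1 U2 : M}
    (h6 : E * Q1 + Q1 * E = 0) (h7 : E * U1 + U1 * E = 0)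
    (h6' : E * Q2 + Q2 * E = 0) (h7' : E * U2 + U2 * E = 0)
    (h8 : Q1 * Q1 = 0) (h8' : Q2 * Q2 = 0) (h9 : Q1 * Q2 + Q2 * Q1 = 0) (h10 : U1 * U1 = 0)
    (h10' : U2 * U2 = 0)
    (h11 : U1 * U2 + U2 * U1 = 0) (h12 : Q1 * U2 + U2 * Q1 = 0) (h13 : Q2 * U1 + U1 * Q2 = 0) :
    (E + ((Q1 + Q2) + (U1 + U2))) * (E + ((Q1 + Q2) + (U1 + U2))) =
      E * E + (Q1 * U1 + U1 * Q1) + (Q2 * U2 + U2 * Q2) := by
  have e : (E + ((Q1 + Q2) + (U1 + U2))) * (E + ((Q1 + Q2) + (U1 + U2))) =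
      E * E + (Q1 * U1 + U1 * Q1) + (Q2 * U2 + U2 * Q2) +
      ((E * Q1 + Q1 * E) + (E * U1 + U1 * E) + (E * Q2 + Q2 * E) + (E * U2 + U2 * E) + Q1 * Q1 +
      Q2 * Q2 + (Q1 * Q2 + Q2 * Q1) + U1 * U1 + U2 * U2 + (U1 * U2 + U2 * U1) +
      (Q1 * U2 + U2 * Q1) + (Q2 * U1 + U1 * Q2)) := by noncomm_ring
  rw [e, h6, h7, h6', h7', h8, h8', h9, h10, h10', h11, h12, h13]
  simp

section wm

variable {ι κ : Type} [Fintype ι] [DecidableEq ι] [Fintype κ] [DecidableEq κ] {c : ℤ}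
  (G : Arms ι κ c) {q : ℕ} [NeZero q] (C C' : κ → Matrix (ZMod q) (ZMod q) ℤ)

/-- the symmetric matrix -/
def Rm : Matrix (ι × ZMod q) (ι × ZMod q) ℤ :=
  G.E ⊗ₖ (1 : Matrix (ZMod q) (ZMod q) ℤ) +
    ((Qm G C + Qm G C') + ((Qm G C)ᵀ + (Qm G C')ᵀ))

theorem RmT : (Rm G C C')ᵀ = Rm G C C' := by
  unfold Rm
  rw [transpose_add, transpose_add, transpose_add, transpose_add, transpose_transpose,
    transpose_transpose, ← kroneckerMap_transpose, transpose_one, G.ET, add_comm ((Qm G C)ᵀ + _)]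

theorem X_Qm {X : Matrix ι ι ℤ} (hX : ∀ a, Pool.Agent.Y342.SK.Rel (-1) X (G.A a)) :
    (X ⊗ₖ (1 : Matrix (ZMod q) (ZMod q) ℤ)) * Qm G C +
      Qm G C * (X ⊗ₖ (1 : Matrix (ZMod q) (ZMod q) ℤ)) = 0 := by
  unfold Qm
  rw [Finset.mul_sum, Finset.sum_mul, ← Finset.sum_add_distrib]
  refine Finset.sum_eq_zero fun a _ => ?_
  have h := hX a
  unfold Pool.Agent.Y342.SK.Rel at h
  rw [← mul_kronecker_mul, ← mul_kronecker_mul, h, one_mul, mul_one, smul_kronecker, neg_one_smul,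
    neg_add_cancel]

theorem X_QmT {X : Matrix ι ι ℤ} (hX : ∀ a, Pool.Agent.Y342.SK.Rel (-1) X (G.A a))
    (hT : Xᵀ = -X ∨ Xᵀ = X) :
    (X ⊗ₖ (1 : Matrix (ZMod q) (ZMod q) ℤ)) * (Qm G C)ᵀ +
      (Qm G C)ᵀ * (X ⊗ₖ (1 : Matrix (ZMod q) (ZMod q) ℤ)) = 0 := by
  have h := congrArg Matrix.transpose (X_Qm G C hX)
  rcases hT with hT | hT
  · have e : (X ⊗ₖ (1 : Matrix (ZMod q) (ZMod q) ℤ))ᵀ =
        -(X ⊗ₖ (1 : Matrix (ZMod q) (ZMod q) ℤ)) := by
      rw [← kroneckerMap_transpose, transpose_one, hT]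
      ext i j; simp [kroneckerMap_apply]
    rw [transpose_add, transpose_mul, transpose_mul, e, mul_neg, neg_mul, transpose_zero] at h
    rw [← neg_eq_zero, ← h]
    abel
  · have e : (X ⊗ₖ (1 : Matrix (ZMod q) (ZMod q) ℤ))ᵀ =
        X ⊗ₖ (1 : Matrix (ZMod q) (ZMod q) ℤ) := by
      rw [← kroneckerMap_transpose, transpose_one, hT]
    rw [transpose_add, transpose_mul, transpose_mul, e, transpose_zero] at h
    rw [← h]
    abel

theorem half {n : Type} [Fintype n] {X : Matrix n n ℤ} (h : X + X = 0) : X = 0 := by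
  ext i j
  have h1 := congrFun (congrFun h i) j
  rw [Matrix.add_apply, Matrix.zero_apply] at h1
  rw [Matrix.zero_apply]
  linarith

end wm

section sys

variable {ι κ : Type} [Fintype ι] [DecidableEq ι] [Fintype κ] [DecidableEq κ] {c : ℤ}
variable {G : Arms ι κ c} {P Q : Matrix ι ι ℤ} {d : ℕ} {S q : ℕ} [NeZero q]
  {F : Option (Fin 1) → κ → ZMod q → ℤ} {s : Option (Fin 1) → ℤ}

/-- the arm sums -/
def Qt (G : Arms ι κ c) (F : Option (Fin 1) → κ → ZMod q → ℤ) (t : Option (Fin 1)) :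
    Matrix (ι × ZMod q) (ι × ZMod q) ℤ := Qm G fun a => circulant (F t a)

/-- the Hadamard matrix -/
def Rx (G : Arms ι κ c) (F : Option (Fin 1) → κ → ZMod q → ℤ) :
    Matrix (ι × ZMod q) (ι × ZMod q) ℤ :=
  Rm G (fun a => circulant (F none a)) (fun a => circulant (F (some 0) a))

theorem Qt_Qt (t t' : Option (Fin 1)) : Qt G F t * Qt G F t' + Qt G F t' * Qt G F t = 0 :=
  Qm_Qm G _ _ fun _ _ => circ_comm _ _

theorem QtT_QtT (t t' : Option (Fin 1)) :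
    (Qt G F t)ᵀ * (Qt G F t')ᵀ + (Qt G F t')ᵀ * (Qt G F t)ᵀ = 0 := by
  rw [← transpose_mul, ← transpose_mul, ← transpose_add, add_comm, Qt_Qt, transpose_zero]

theorem Qt_QtT (hF : Fam κ S q 1 F s) (t : Option (Fin 1)) :
    Qt G F t * (Qt G F t)ᵀ + (Qt G F t)ᵀ * Qt G F t =
      (c * s t) • (1 : Matrix (ι × ZMod q) (ι × ZMod q) ℤ) :=
  Qm_QmT G _ _ (fun _ _ => circ_commT _ _) (hF.auto t)

theorem Qt_QtT_none (hF : Fam κ S q 1 F s) :
    Qt G F none * (Qt G F (some 0))ᵀ + (Qt G F (some 0))ᵀ * Qt G F none = 0 := by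
  have h := Qm_QmT G (fun a => circulant (F none a)) (fun a => circulant (F (some 0) a))
    (fun _ _ => circ_commT _ _) (s := 0) (by rw [hF.cross 0, zero_smul])
  rw [mul_zero, zero_smul] at h
  exact h

theorem Qt_QtT_some (hF : Fam κ S q 1 F s) :
    Qt G F (some 0) * (Qt G F none)ᵀ + (Qt G F none)ᵀ * Qt G F (some 0) = 0 := by
  have h := congrArg Matrix.transpose (Qt_QtT_none (G := G) hF)
  rw [transpose_add, transpose_mul, transpose_mul, transpose_transpose, transpose_zero] at h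
  exact h

theorem X0E (h : IsPair G P Q d) (t : Option (Fin 1)) :
    Pool.Agent.Y342.SK.Rel (-1) (X0 1 P Q t) G.E := by
  rcases t with _ | b
  · exact h.hP.XE
  · unfold X0
    by_cases hb : b = 0
    · simp only [if_pos hb]; exact h.hQ.XE
    · simp only [if_neg hb]; unfold Pool.Agent.Y342.SK.Rel; simp

theorem X0E' (h : IsPair G P Q d) (t : Option (Fin 1)) :
    (X0 1 P Q t ⊗ₖ (1 : Matrix (ZMod q) (ZMod q) ℤ)) * (G.E ⊗ₖ (1 : Matrix (ZMod q) (ZMod q) ℤ)) +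
      (G.E ⊗ₖ (1 : Matrix (ZMod q) (ZMod q) ℤ)) *
      (X0 1 P Q t ⊗ₖ (1 : Matrix (ZMod q) (ZMod q) ℤ)) = 0 := by
  have h1 := anti (X0E h t)
  rw [← mul_kronecker_mul, ← mul_kronecker_mul, ← add_kronecker, h1, zero_kronecker]

theorem Mx_Rx_none (h : IsPair G P Q d) (hF : Fam κ S q 1 F s) :
    Mx G P Q F none * Rx G F + Rx G F * Mx G P Q F none = 0 :=
  ring_AR (X0E' h none) (X_Qm G _ (X0A h none)) (X_Qm G _ (X0A h none))
    (X_QmT G _ (X0A h none) (Or.inl (X0T h none))) (X_QmT G _ (X0A h none) (Or.inl (X0T h none)))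
    (X_Qm G _ G.EA) (X_QmT G _ G.EA (Or.inr G.ET)) (Qt_Qt none none) (Qt_Qt none (some 0))
    (QtT_QtT none none) (QtT_QtT none (some 0)) (Qt_QtT_none hF) (Qt_QtT_some hF)

theorem Mx_Rx_some (h : IsPair G P Q d) (hF : Fam κ S q 1 F s) :
    Mx G P Q F (some 0) * Rx G F + Rx G F * Mx G P Q F (some 0) = 0 := by
  have h1 := ring_AR (X0E' (q := q) h (some 0)) (X_Qm G (fun a => circulant (F (some 0) a)) (X0A h (some 0)))
    (X_Qm G (fun a => circulant (F none a)) (X0A h (some 0)))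
    (X_QmT G _ (X0A h (some 0)) (Or.inl (X0T h (some 0))))
    (X_QmT G _ (X0A h (some 0)) (Or.inl (X0T h (some 0))))
    (X_Qm G _ G.EA) (X_QmT G _ G.EA (Or.inr G.ET)) (Qt_Qt (some 0) (some 0)) (Qt_Qt (some 0) none)
    (QtT_QtT (some 0) (some 0)) (QtT_QtT (some 0) none) (Qt_QtT_some hF) (Qt_QtT_none hF)
  rw [add_comm (Qm G _) (Qm G _), add_comm (Qm G _)ᵀ (Qm G _)ᵀ] at h1
  exact h1

theorem Rx_sq (hF : Fam κ S q 1 F s) : Rx G F * Rx G F =
    ((Fintype.card ι : ℤ) + c * s none + c * s (some 0)) • (1 : Matrix (ι × ZMod q) _ ℤ) := by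
  have h1 := ring_RR (X_Qm G (fun a => circulant (F none a)) G.EA)
    (X_QmT G (fun a => circulant (F none a)) G.EA (Or.inr G.ET))
    (X_Qm G (fun a => circulant (F (some 0) a)) G.EA)
    (X_QmT G (fun a => circulant (F (some 0) a)) G.EA (Or.inr G.ET))
    (half (Qt_Qt none none)) (half (Qt_Qt (some 0) (some 0))) (Qt_Qt none (some 0))
    (half (QtT_QtT none none)) (half (QtT_QtT (some 0) (some 0))) (QtT_QtT none (some 0))
    (Qt_QtT_none hF) (Qt_QtT_some hF)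
  have h2 := Qt_QtT (G := G) hF none
  have h3 := Qt_QtT (G := G) hF (some 0)
  have h4 : (G.E ⊗ₖ (1 : Matrix (ZMod q) (ZMod q) ℤ)) * (G.E ⊗ₖ (1 : Matrix (ZMod q) (ZMod q) ℤ)) =
      (Fintype.card ι : ℤ) • (1 : Matrix (ι × ZMod q) _ ℤ) := by
    rw [← mul_kronecker_mul, G.EE, one_mul, smul_kronecker, one_kronecker_one]
  unfold Qt at h2 h3
  unfold Rx Rm
  rw [h1, h2, h3, h4, ← add_smul, ← add_smul]

theorem Rx_apply (x y : ι) (i j : ZMod q) : Rx G F (x, i) (y, j) =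
    (if i = j then G.E x y else 0) + (((∑ a, G.A a x y * F none a (i - j)) +
      ∑ a, G.A a x y * F (some 0) a (i - j)) + ((∑ a, G.A a y x * F none a (j - i)) +
      ∑ a, G.A a y x * F (some 0) a (j - i))) := by
  simp only [Rx, Rm, Qm, Matrix.add_apply, transpose_apply, Matrix.sum_apply,
    kroneckerMap_apply, Matrix.one_apply, mul_ite, mul_one, mul_zero]
  rfl

theorem Rx_sg (hF : Fam κ S q 1 F s) (x y : ι × ZMod q) : Sg (Rx G F x y) := by
  obtain ⟨x, i⟩ := x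
  obtain ⟨y, j⟩ := y
  rw [Rx_apply]
  have h0 : ∀ t a, F t a 0 = 0 := fun t a => hF.zero t a 0 (Or.inl ZMod.val_zero)
  have hq := hF.hq
  have key : ∀ (x y : ι) (d : ZMod q), 1 ≤ d.val → d.val ≤ S →
      Sg ((∑ a, G.A a x y * F none a d) + ∑ a, G.A a x y * F (some 0) a d) := by
    intro x y d hd1 hd2
    obtain ⟨a, ha, hb⟩ := G.sup x y
    have h2 : ∀ t, ∑ b, G.A b x y * F t b d = G.A a x y * F t a d := by
      intro t
      rw [Finset.sum_eq_single a]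
      · intro b _ hba
        rw [hb b hba, zero_mul]
      · intro h; exact absurd (mem_univ _) h
    rw [h2, h2]
    obtain ⟨t, ht, ht'⟩ := hF.cover a d hd1 hd2
    rcases t with _ | b
    · rw [ht' (some 0) (by simp), mul_zero, add_zero]
      exact ha.mul ht
    · have hb0 : b = 0 := Subsingleton.elim _ _
      subst hb0
      rw [ht' none (by simp), mul_zero, zero_add]
      exact ha.mul ht
  have zer : ∀ (x y : ι) (t : Option (Fin 1)) (d : ZMod q), (d.val = 0 ∨ S < d.val) →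
      (∑ a, G.A a x y * F t a d) = 0 := by
    intro x y t d hd
    refine Finset.sum_eq_zero fun a _ => ?_
    rw [hF.zero t a d hd, mul_zero]
  by_cases hij : i = j
  · subst hij
    have hz : (i - i : ZMod q).val = 0 := by rw [sub_self, ZMod.val_zero]
    rw [zer _ _ _ _ (Or.inl hz), zer _ _ _ _ (Or.inl hz), zer _ _ _ _ (Or.inl hz),
      zer _ _ _ _ (Or.inl hz), if_pos rfl]
    simp only [add_zero]
    exact G.Es _ _
  · rw [if_neg hij, zero_add]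
    have hd : (i - j).val ≠ 0 := by
      rw [Ne, ZMod.val_eq_zero, sub_eq_zero]
      exact hij
    have hlt := ZMod.val_lt (i - j)
    have hneg : (j - i).val = q - (i - j).val := by
      have : j - i = -(i - j) := by ring
      rw [this, ZMod.neg_val, if_neg (sub_ne_zero.2 hij)]
    by_cases hle : (i - j).val ≤ S
    · rw [zer y x none (j - i) (Or.inr (by omega)), zer y x (some 0) (j - i) (Or.inr (by omega)),
        add_zero, add_zero]
      exact key x y (i - j) (by omega) hle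
    · rw [zer x y none (i - j) (Or.inr (by omega)), zer x y (some 0) (i - j) (Or.inr (by omega)),
        add_zero, zero_add]
      exact key y x (j - i) (by omega) (by omega)

theorem isFull_of (h : IsPair G P Q d) (hF : Fam κ S q 1 F s) {D J : ℤ}
    (hJ : (Fintype.card ι : ℤ) = J) (h1 : c * s none = J * D) (h2 : c * s (some 0) = J * (2 * S - D)) :
    IsFull (Mx G P Q F none) (Mx G P Q F (some 0)) (Rx G F) ((d : ℤ) + J * D) := by
  have hcard : (Fintype.card (ι × ZMod q) : ℤ) = J * (2 * S + 1) := by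
    rw [Fintype.card_prod, ZMod.card, hF.hq]
    push_cast
    rw [hJ]
  refine ⟨MxT h none, MxT h (some 0), RmT G _ _, ?_, ?_, ?_, of_anti (MxMx h hF 0),
    of_anti (Mx_Rx_none h hF), of_anti (Mx_Rx_some h hF), Mx_self h hF none, Mx_self h hF (some 0),
    ?_, Rx_sg hF⟩
  · rw [Mxsq h hF none, h1]
    rfl
  · rw [Mxsq h hF (some 0), h2, hcard]
    have hw0 : w0 ι 1 d (some 0) = J - 1 - d := by
      rw [← hJ]
      change (if (0 : Fin 1) = 0 then (Fintype.card ι : ℤ) - 1 - d else 0) = _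
      exact if_pos rfl
    rw [hw0]
    congr 1
    ring
  · rw [Rx_sq hF, hcard, h1, h2, hJ]
    congr 1
    ring
  · intro x y hxy
    obtain ⟨t, h1, h2⟩ := Mx_cover h hF x y hxy
    rcases t with _ | a
    · exact Or.inl ⟨h1, h2 (some 0) (by simp)⟩
    · have ha0 : a = 0 := Subsingleton.elim _ _
      subst ha0
      exact Or.inr ⟨h2 none (by simp), h1⟩

end sys

theorem core {k S : ℕ} (hPU : ∀ l ≤ S, PUk k l) :
    Full (2 ^ (5 * 2 ^ (k + 2) - 1) * (2 * S + 1)) := by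
  obtain ⟨ι, κ, i1, i2, i3, i4, c, hι, hκ, hG⟩ := exists_arms (k + 2)
  obtain ⟨J, hJ⟩ : ∃ J, J = 2 ^ (5 * 2 ^ (k + 2) - 1) := ⟨_, rfl⟩
  rw [← hJ] at hι ⊢
  have hJ0 : 0 < J := by rw [hJ]; positivity
  obtain ⟨q, hq⟩ : ∃ q, q = 2 * S + 1 := ⟨_, rfl⟩
  have : NeZero q := ⟨by omega⟩
  -- the case of a small weight
  have key : ∀ d D : ℕ, d < J → D ≤ S →
      ∃ A B R : Matrix (ι × ZMod q) (ι × ZMod q) ℤ, IsFull A B R ((d + J * D : ℕ) : ℤ) := by
    intro d D hd hD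
    obtain ⟨G, P, Q, hPQ⟩ := hG d (by rw [hι]; exact hd)
    obtain ⟨F, w, hF, hw1, hw2, -⟩ := exists_fam (κ := κ) (k := k) (r := 1) hq hκ hPU 0 0 D
      (by simpa using hD) (by simp)
    have hc : c * 2 ^ (k + 1) = J := by
      have h := G.hc
      rw [hκ, hι] at h
      push_cast at h
      rw [pow_succ] at h
      linarith
    have h := isFull_of (D := D) (J := J) hPQ hF (by rw [hι]) (by rw [hw1, ← mul_assoc, hc])
      (by rw [hw2, ← mul_assoc, hc]; push_cast; ring)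
    exact ⟨_, _, _, by exact_mod_cast h⟩
  have hcard : Fintype.card (ι × ZMod q) = J * (2 * S + 1) := by
    rw [Fintype.card_prod, ZMod.card, hι, hq]
  refine full_of hcard ?_
  intro w hw
  have hdm := Nat.div_add_mod w J
  have hmod := Nat.mod_lt w hJ0
  have hdiv : w / J < 2 * S + 1 := Nat.div_lt_of_lt_mul hw
  by_cases hS : w / J ≤ S
  · obtain ⟨A, B, R, h⟩ := key (w % J) (w / J) hmod hS
    rw [add_comm, hdm] at h
    exact ⟨A, B, R, h⟩
  · obtain ⟨A, B, R, h⟩ := key (J - 1 - w % J) (2 * S - w / J) (by omega) (by omega)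
    refine ⟨B, A, R, ?_⟩
    have h' := h.swap
    rw [hcard] at h'
    convert h' using 1
    have e1 : ((J - 1 - w % J : ℕ) : ℤ) = (J : ℤ) - 1 - (w % J : ℕ) := by
      rw [Nat.cast_sub (by omega), Nat.cast_sub (by omega)]
      norm_num
    have e2 : ((2 * S - w / J : ℕ) : ℤ) = 2 * (S : ℤ) - (w / J : ℕ) := by
      rw [Nat.cast_sub (by omega)]
      norm_num
    have e3 : (w : ℤ) = J * (w / J : ℕ) + (w % J : ℕ) := by exact_mod_cast hdm.symm
    rw [Nat.cast_add, Nat.cast_mul, Nat.cast_mul, e1, e2]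
    generalize ((w / J : ℕ) : ℤ) = z1 at *
    generalize ((w % J : ℕ) : ℤ) = z2 at *
    rw [e3]
    push_cast
    ring

/-- all weights in all orders `2 ^ t * q`, `t ≥ 2 ^ (C ^ (1 + log* q))` -/
theorem main_full : ∃ C : ℕ, ∀ n q t : ℕ, 0 < q → q ≤ (fun x : ℕ => 2 ^ x)^[n] 1 →
    2 ^ C ^ (n + 1) ≤ t → Full (2 ^ t * q) := by
  obtain ⟨C, hC, h⟩ := Pool.Agent.W851.Had.main_pu
  refine ⟨C + 5, fun n q t hq hqn ht => ?_⟩
  obtain ⟨a, m, hm, rfl⟩ := Nat.exists_eq_two_pow_mul_odd (n := q) hq.ne'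
  obtain ⟨S, rfl⟩ := hm
  have hS : S ≤ 2 ^ a * (2 * S + 1) := by
    have : 1 ≤ 2 ^ a := Nat.one_le_two_pow
    nlinarith
  have h1 : ∀ l ≤ S, PUk (C ^ (n + 1)) l := fun l hl => h n l _ ((hl.trans hS).trans hqn) le_rfl
  have h2 : C ^ (n + 1) + 5 ≤ (C + 5) ^ (n + 1) := by
    have h3 : C ^ (n + 1) + 5 ^ (n + 1) ≤ (C + 5) ^ (n + 1) := by
      have := pow_add_pow_le (by omega : 0 ≤ C) (by omega : 0 ≤ 5) (n := n + 1) (by omega)
      exact this
    have h4 : 5 ≤ 5 ^ (n + 1) := by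
      calc 5 = 5 ^ 1 := by norm_num
        _ ≤ 5 ^ (n + 1) := Nat.pow_le_pow_right (by norm_num) (by omega)
    omega
  have h5 : 5 * 2 ^ (C ^ (n + 1) + 2) - 1 ≤ t := by
    have h6 : 2 ^ (C ^ (n + 1) + 5) ≤ 2 ^ (C + 5) ^ (n + 1) := Nat.pow_le_pow_right (by norm_num) h2
    rw [pow_add] at h6
    have h7 : 2 ^ C ^ (n + 1) * 2 ^ 5 ≤ t := h6.trans ht
    rw [pow_add]
    omega
  have h8 := full_pow (t + a - (5 * 2 ^ (C ^ (n + 1) + 2) - 1)) _ (core h1)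
  have h9 : t + a - (5 * 2 ^ (C ^ (n + 1) + 2) - 1) + (5 * 2 ^ (C ^ (n + 1) + 2) - 1) = t + a := by
    omega
  rwa [← mul_assoc, ← pow_add, h9, pow_add, mul_assoc] at h8

end Pool.Agent.H87V.AW
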