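import Pool.Agent.N328.PH.Base
import Pool.Agent.N328.PH.Seq
import Pool.Agent.W851.Had.Tower

/-!
# Full designs of all weights with an amicable symmetric Hadamard matrix
-/

set_option autoImplicit false
set_option linter.unusedSectionVars false

namespace Pool.Agent.H87V.AW

open Matrix Finset
open scoped Kronecker
open Pool.Agent.Y342.SK
open Pool.Agent.N328.PH
open Pool.Agent.H108R3.Had (PUk)

/-- two complementary anticommuting skew weighing matrices `A`, `B` of weights `w`, `n - 1 - w` and a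
symmetric Hadamard matrix `R` which anticommutes with both -/
structure IsFull {ι : Type} [Fintype ι] [DecidableEq ι] (A B R : Matrix ι ι ℤ) (w : ℤ) : Prop where
  AT : Aᵀ = -A
  BT : Bᵀ = -B
  RT : Rᵀ = R
  AA : A * A = (-w) • (1 : Matrix ι ι ℤ)
  BB : B * B = (-((Fintype.card ι : ℤ) - 1 - w)) • (1 : Matrix ι ι ℤ)
  RR : R * R = (Fintype.card ι : ℤ) • (1 : Matrix ι ι ℤ)
  AB : Rel (-1) A B
  AR : Rel (-1) A R
  BR : Rel (-1) B R
  A0 : ∀ x, A x x = 0
  B0 : ∀ x, B x x = 0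
  AB1 : ∀ x y, x ≠ y → (Sg (A x y) ∧ B x y = 0) ∨ (A x y = 0 ∧ Sg (B x y))
  R1 : ∀ x y, Sg (R x y)

/-- all weights in order `N` -/
def Full (N : ℕ) : Prop := ∀ w : ℕ, w < N → ∃ A B R : Matrix (Fin N) (Fin N) ℤ, IsFull A B R w

section tr

variable {ι : Type} [Fintype ι] [DecidableEq ι] {A B R : Matrix ι ι ℤ} {w : ℤ}

theorem IsFull.swap (h : IsFull A B R w) : IsFull B A R ((Fintype.card ι : ℤ) - 1 - w) where
  AT := h.BT
  BT := h.AT
  RT := h.RT
  AA := h.BB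
  BB := by rw [h.AA]; congr 1; ring
  RR := h.RR
  AB := h.AB.symm (by norm_num)
  AR := h.BR
  BR := h.AR
  A0 := h.B0
  B0 := h.A0
  AB1 := fun x y hxy => by
    rcases h.AB1 x y hxy with ⟨h1, h2⟩ | ⟨h1, h2⟩
    · exact Or.inr ⟨h2, h1⟩
    · exact Or.inl ⟨h2, h1⟩
  R1 := h.R1

theorem smul_one_submatrix {κ : Type} [DecidableEq κ] (e : κ ≃ ι) (c : ℤ) :
    (c • (1 : Matrix ι ι ℤ)).submatrix e e = c • (1 : Matrix κ κ ℤ) := by
  ext i j
  rw [Matrix.submatrix_apply, Matrix.smul_apply, Matrix.smul_apply, Matrix.one_apply, Matrix.one_apply]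
  by_cases hij : i = j
  · rw [if_pos hij, if_pos (congrArg e hij)]
  · rw [if_neg hij, if_neg (fun h => hij (e.injective h))]

theorem rel_submatrix {κ : Type} [Fintype κ] (e : κ ≃ ι) {X Y : Matrix ι ι ℤ} {s : ℤ} (h : Rel s X Y) :
    Rel s (X.submatrix e e) (Y.submatrix e e) := by
  unfold Pool.Agent.Y342.SK.Rel at *
  rw [submatrix_mul_equiv, submatrix_mul_equiv, h]
  rfl

theorem IsFull.tr {κ : Type} [Fintype κ] [DecidableEq κ] (h : IsFull A B R w) (e : κ ≃ ι) :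
    IsFull (A.submatrix e e) (B.submatrix e e) (R.submatrix e e) w where
  AT := by rw [transpose_submatrix, h.AT]; rfl
  BT := by rw [transpose_submatrix, h.BT]; rfl
  RT := by rw [transpose_submatrix, h.RT]
  AA := by rw [submatrix_mul_equiv, h.AA, smul_one_submatrix]
  BB := by rw [submatrix_mul_equiv, h.BB, smul_one_submatrix, Fintype.card_congr e]
  RR := by rw [submatrix_mul_equiv, h.RR, smul_one_submatrix, Fintype.card_congr e]
  AB := rel_submatrix e h.AB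
  AR := rel_submatrix e h.AR
  BR := rel_submatrix e h.BR
  A0 := fun x => h.A0 _
  B0 := fun x => h.B0 _
  AB1 := fun x y hxy => h.AB1 _ _ fun h' => hxy (e.injective h')
  R1 := fun x y => h.R1 _ _

theorem full_of {N : ℕ} (hN : Fintype.card ι = N)
    (h : ∀ w : ℕ, w < N → ∃ A B R : Matrix ι ι ℤ, IsFull A B R w) : Full N := by
  intro w hw
  obtain ⟨A, B, R, h⟩ := h w hw
  exact ⟨_, _, _, h.tr (Fintype.equivFinOfCardEq hN).symm⟩

end tr

section prod

variable {ι κ : Type} [Fintype ι] [DecidableEq ι] [Fintype κ] [DecidableEq κ]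
  {A B R : Matrix ι ι ℤ} {A' B' R' : Matrix κ κ ℤ} {w w' : ℤ}

theorem anti {X Y : Matrix ι ι ℤ} (h : Rel (-1) X Y) : X * Y + Y * X = 0 := by
  unfold Pool.Agent.Y342.SK.Rel at h
  rw [h, neg_one_smul, neg_add_cancel]

theorem of_anti {X Y : Matrix ι ι ℤ} (h : X * Y + Y * X = 0) : Rel (-1) X Y := by
  unfold Pool.Agent.Y342.SK.Rel
  rw [neg_one_smul]
  exact eq_neg_of_add_eq_zero_left h

theorem pr_rel0 {X : Matrix ι ι ℤ} {X' : Matrix κ κ ℤ} (hXR' : Rel (-1) X' R') :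
    Rel (-1) (X ⊗ₖ R') ((1 : Matrix ι ι ℤ) ⊗ₖ X') := by
  simpa using (Rel.one_right X).kron (hXR'.symm (by norm_num))

theorem pr_sq {X : Matrix ι ι ℤ} {X' : Matrix κ κ ℤ} {x x' : ℤ} (hXX : X * X = (-x) • (1 : Matrix ι ι ℤ))
    (hXX' : X' * X' = (-x') • (1 : Matrix κ κ ℤ)) (hXR' : Rel (-1) X' R')
    (hRR' : R' * R' = (Fintype.card κ : ℤ) • (1 : Matrix κ κ ℤ)) :
    (X ⊗ₖ R' + (1 : Matrix ι ι ℤ) ⊗ₖ X') * (X ⊗ₖ R' + (1 : Matrix ι ι ℤ) ⊗ₖ X') =
      (-(x * (Fintype.card κ : ℤ) + x')) • (1 : Matrix (ι × κ) (ι × κ) ℤ) := by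
  rw [sq_add (pr_rel0 hXR'), ← mul_kronecker_mul, ← mul_kronecker_mul, hXX, hRR', hXX', smul_one_kron,
    one_mul, kronecker_smul, one_kronecker_one, ← add_smul]
  congr 1
  ring

theorem pr_T {X : Matrix ι ι ℤ} {X' : Matrix κ κ ℤ} (hX : Xᵀ = -X) (hX' : X'ᵀ = -X') (hR' : R'ᵀ = R') :
    (X ⊗ₖ R' + (1 : Matrix ι ι ℤ) ⊗ₖ X')ᵀ = -(X ⊗ₖ R' + (1 : Matrix ι ι ℤ) ⊗ₖ X') := by
  rw [transpose_add, ← kroneckerMap_transpose, ← kroneckerMap_transpose, transpose_one, hX, hX', hR']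
  ext i j
  simp only [Matrix.add_apply, Matrix.neg_apply, kroneckerMap_apply]
  ring

theorem IsFull.prod (h : IsFull A B R w) (h' : IsFull A' B' R' w') :
    IsFull (A ⊗ₖ R' + (1 : Matrix ι ι ℤ) ⊗ₖ A') (B ⊗ₖ R' + (1 : Matrix ι ι ℤ) ⊗ₖ B') (R ⊗ₖ R')
      (w * (Fintype.card κ : ℤ) + w') where
  AT := pr_T h.AT h'.AT h'.RT
  BT := pr_T h.BT h'.BT h'.RT
  RT := by rw [← kroneckerMap_transpose, h.RT, h'.RT]
  AA := pr_sq h.AA h'.AA h'.AR h'.RR
  BB := by
    rw [pr_sq h.BB h'.BB h'.BR h'.RR, Fintype.card_prod]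
    congr 1
    push_cast
    ring
  RR := by
    rw [← mul_kronecker_mul, h.RR, h'.RR, smul_one_kron, Fintype.card_prod, Nat.cast_mul]
  AB := by
    refine Rel.add_left (Rel.add_right ?_ ?_) (Rel.add_right ?_ ?_)
    · simpa using h.AB.kron (Rel.refl R')
    · simpa using (Rel.one_right A).kron (h'.BR.symm (by norm_num))
    · simpa using (Rel.one_left B).kron h'.AR
    · simpa using (Rel.refl (1 : Matrix ι ι ℤ)).kron h'.AB
  AR := by
    refine Rel.add_left ?_ ?_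
    · simpa using h.AR.kron (Rel.refl R')
    · simpa using (Rel.one_left R).kron h'.AR
  BR := by
    refine Rel.add_left ?_ ?_
    · simpa using h.BR.kron (Rel.refl R')
    · simpa using (Rel.one_left R).kron h'.BR
  A0 := by
    rintro ⟨x, x'⟩
    simp only [Matrix.add_apply, kroneckerMap_apply]
    rw [h.A0, h'.A0]; ring
  B0 := by
    rintro ⟨x, x'⟩
    simp only [Matrix.add_apply, kroneckerMap_apply]
    rw [h.B0, h'.B0]; ring
  AB1 := by
    rintro ⟨x, x'⟩ ⟨y, y'⟩ hne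
    simp only [Matrix.add_apply, kroneckerMap_apply]
    by_cases hxy : x = y
    · subst hxy
      simp only [h.A0, h.B0, zero_mul, zero_add, one_apply_eq, one_mul]
      exact h'.AB1 _ _ fun h'' => hne (by rw [h''])
    · simp only [one_apply_ne hxy, zero_mul, add_zero]
      rcases h.AB1 x y hxy with ⟨h1, h2⟩ | ⟨h1, h2⟩
      · exact Or.inl ⟨h1.mul (h'.R1 _ _), by rw [h2, zero_mul]⟩
      · exact Or.inr ⟨by rw [h1, zero_mul], h2.mul (h'.R1 _ _)⟩
  R1 := by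
    rintro ⟨x, x'⟩ ⟨y, y'⟩
    simp only [kroneckerMap_apply]
    exact (h.R1 _ _).mul (h'.R1 _ _)

end prod

theorem Full.mul {N M : ℕ} (h : Full N) (h' : Full M) : Full (N * M) := by
  refine full_of (ι := Fin N × Fin M) (by rw [Fintype.card_prod, Fintype.card_fin, Fintype.card_fin]) ?_
  intro w hw
  have hM : 0 < M := by
    rcases Nat.eq_zero_or_pos M with h | h
    · rw [h] at hw; omega
    · exact h
  obtain ⟨A, B, R, hf⟩ := h (w / M) (Nat.div_lt_of_lt_mul (by rwa [mul_comm M]))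
  obtain ⟨A', B', R', hf'⟩ := h' (w % M) (Nat.mod_lt _ hM)
  have h1 := hf.prod hf'
  rw [Fintype.card_fin] at h1
  have e : ((w / M : ℕ) : ℤ) * (M : ℤ) + ((w % M : ℕ) : ℤ) = (w : ℤ) := by
    exact_mod_cast Nat.div_add_mod' w M
  rw [e] at h1
  exact ⟨_, _, _, h1⟩

theorem full_two : Full 2 := by
  intro w hw
  have e1 : (-1 : Matrix (Fin 2) (Fin 2) ℤ) = (-1 : ℤ) • 1 := by simp
  have hw' : w = 0 ∨ w = 1 := by omega
  have h1 : IsFull (ι := Fin 2) ep 0 hh 1 := {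
    AT := epT
    BT := by simp
    RT := hhT
    AA := by rw [ep_ep, e1]
    BB := by simp
    RR := by rw [hh_hh]; simp
    AB := by unfold Pool.Agent.Y342.SK.Rel; simp
    AR := ep_hh
    BR := by unfold Pool.Agent.Y342.SK.Rel; simp
    A0 := ep_self
    B0 := fun _ => rfl
    AB1 := fun x y hxy => Or.inl ⟨ep_ne x y hxy, rfl⟩
    R1 := hh_sg }
  rcases hw' with rfl | rfl
  · have h0 := h1.swap
    rw [Fintype.card_fin] at h0
    exact ⟨_, _, _, by simpa using h0⟩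
  · exact ⟨_, _, _, by simpa using h1⟩

theorem full_pow : ∀ t : ℕ, ∀ N : ℕ, Full N → Full (2 ^ t * N)
  | 0, N, h => by simpa using h
  | t + 1, N, h => by
    have := full_two.mul (full_pow t N h)
    rwa [← mul_assoc, ← pow_succ'] at this

end Pool.Agent.H87V.AW
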